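import Pool.Agent.Helper50.PB.Peierls

/-!
# Project PG+ (b): Peierls regularity for every law without mass on `(-∞, 0]`

`exists_reg`: there is `a₀ > 0` depending only on `d` and the law `ν` such that for independent
weights `X` with the law `ν` and ANY weights `X'` with `min X 1 ≤ X'` (truncated, shifted, ...),
with probability at least `1 - exp (-n)` every walk from `x` with different edges and at least `n`
steps costs at least `a₀` per step.
-/

set_option autoImplicit false

namespace Pool.Agent.Helper50.PB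

open MeasureTheory ProbabilityTheory Pool.Agent.Helper79.GR Filter Topology

variable {Ω : Type*} [MeasurableSpace Ω] {d : ℕ} {P : Measure Ω} {ν : Measure ℝ}

/-- small values are rare -/
theorem exists_small [IsProbabilityMeasure ν] {a : ℝ} (h0 : ν (Set.Iic a) = 0) {p : ℝ}
    (hp : 0 < p) : ∃ β, a < β ∧ β ≤ a + 1 ∧ ν.real (Set.Iio β) ≤ p := by
  have h1 : Tendsto (fun n : ℕ => ν (Set.Iio (a + 1 / ((n : ℝ) + 1)))) atTop
      (𝓝 (ν (⋂ n : ℕ, Set.Iio (a + 1 / ((n : ℝ) + 1))))) := by
    refine tendsto_measure_iInter_atTop (fun n => measurableSet_Iio.nullMeasurableSet) ?_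
      ⟨0, measure_ne_top _ _⟩
    intro m n hmn
    refine Set.Iio_subset_Iio ?_
    have e1 : (m : ℝ) ≤ n := by exact_mod_cast hmn
    have e2 : (0 : ℝ) < (m : ℝ) + 1 := by positivity
    have := one_div_le_one_div_of_le e2 (show (m : ℝ) + 1 ≤ (n : ℝ) + 1 by linarith)
    linarith
  have h2 : (⋂ n : ℕ, Set.Iio (a + 1 / ((n : ℝ) + 1))) = Set.Iic a := by
    ext x
    simp only [Set.mem_iInter, Set.mem_Iio, Set.mem_Iic]
    constructor
    · intro h
      by_contra hx
      rw [not_le] at hx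
      obtain ⟨n, hn⟩ := exists_nat_one_div_lt (show (0 : ℝ) < x - a by linarith)
      have := h n
      linarith
    · intro h n
      have : (0 : ℝ) < 1 / ((n : ℝ) + 1) := by positivity
      linarith
  rw [h2, h0] at h1
  have h3 : ∀ᶠ n : ℕ in atTop, ν (Set.Iio (a + 1 / ((n : ℝ) + 1))) < ENNReal.ofReal p :=
    h1.eventually_lt_const (by simpa using hp)
  obtain ⟨n, hn⟩ := h3.exists
  refine ⟨a + 1 / ((n : ℝ) + 1), by have : (0 : ℝ) < 1 / ((n : ℝ) + 1) := by positivity
                                    linarith, ?_, ?_⟩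
  · have : 1 / ((n : ℝ) + 1) ≤ 1 := by
      rw [div_le_one (by positivity)]
      have : (0 : ℝ) ≤ n := Nat.cast_nonneg _
      linarith
    linarith
  · exact ENNReal.toReal_le_of_le_ofReal hp.le hn.le

/-- large values are rare -/
theorem exists_large [IsProbabilityMeasure ν] {p : ℝ} (hp : 0 < p) (K₀ : ℝ) :
    ∃ K, K₀ ≤ K ∧ ν.real (Set.Ioi K) ≤ p := by
  have h1 : Tendsto (fun n : ℕ => ν (Set.Ioi (K₀ + (n : ℝ)))) atTop
      (𝓝 (ν (⋂ n : ℕ, Set.Ioi (K₀ + (n : ℝ))))) := by
    refine tendsto_measure_iInter_atTop (fun n => measurableSet_Ioi.nullMeasurableSet) ?_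
      ⟨0, measure_ne_top _ _⟩
    intro m n hmn
    refine Set.Ioi_subset_Ioi ?_
    have e1 : (m : ℝ) ≤ n := by exact_mod_cast hmn
    linarith
  have h2 : (⋂ n : ℕ, Set.Ioi (K₀ + (n : ℝ))) = ∅ := by
    rw [Set.eq_empty_iff_forall_notMem]
    intro x hx
    simp only [Set.mem_iInter, Set.mem_Ioi] at hx
    obtain ⟨n, hn⟩ := exists_nat_gt (x - K₀)
    have := hx n
    linarith
  rw [h2, measure_empty] at h1
  have h3 : ∀ᶠ n : ℕ in atTop, ν (Set.Ioi (K₀ + (n : ℝ))) < ENNReal.ofReal p :=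
    h1.eventually_lt_const (by simpa using hp)
  obtain ⟨n, hn⟩ := h3.exists
  exact ⟨K₀ + n, by have : (0 : ℝ) ≤ n := Nat.cast_nonneg _
                    linarith, ENNReal.toReal_le_of_le_ofReal hp.le hn.le⟩

/-- lower bound of the cost by the number of heavy edges -/
theorem le_cost_countP {c : Edge d → ℝ} {β : ℝ} (p : Edge d → Bool) (h0 : ∀ e, 0 ≤ c e)
    (h1 : ∀ e, p e = false → β ≤ c e) (x : V d) (w : List (St d)) :
    β * ((w.length : ℝ) - ((eds x w).countP p : ℝ)) ≤ cost c x w := by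
  induction w generalizing x with
  | nil => simp [eds, cost]
  | cons s w ih =>
    have h2 := ih (x + sv s)
    simp only [eds, cost, List.length_cons, List.countP_cons, Nat.cast_add, Nat.cast_one]
    cases hs : p (ed x s) with
    | true =>
      simp only [if_true, Nat.cast_one]
      have h3 := h0 (ed x s)
      nlinarith [h2, h3]
    | false =>
      simp only [Bool.false_eq_true, if_false, Nat.cast_zero]
      have h3 := h1 (ed x s) hs
      nlinarith [h2, h3]

/-- **regularity for every law**: with `a₀ = a₀ (d, ν)` -/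
theorem exists_reg [IsProbabilityMeasure ν] (hν : ν (Set.Iic 0) = 0) (d : ℕ) :
    ∃ a₀ : ℝ, 0 < a₀ ∧ a₀ ≤ 1 / 2 ∧ ∀ {Ω : Type*} [MeasurableSpace Ω] (P : Measure Ω)
      [IsProbabilityMeasure P] (X : Edge d → Ω → ℝ), (∀ e, Measurable (X e)) → iIndepFun X P →
      (∀ e, P.map (X e) = ν) → ∀ X' : Edge d → Ω → ℝ, (∀ e ω, 0 ≤ X' e ω) →
      (∀ e ω, min (X e ω) 1 ≤ X' e ω) → ∀ (x : V d) (n : ℕ),
      P {ω | ∃ w : List (St d), n ≤ w.length ∧ (eds x w).Nodup ∧
        cost (cf X' ω) x w < a₀ * w.length} ≤ ENNReal.ofReal (Real.exp (-n)) := by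
  classical
  obtain ⟨β, hβ0, hβ1, hβ⟩ := exists_small hν (pthr_pos d (1 / 2))
  rw [zero_add] at hβ1
  refine ⟨β / 2, by linarith, by linarith, ?_⟩
  intro Ω _ P _ X hm hi hl X' h0 h1 x n
  refine (measure_mono ?_).trans
    (peierls_set hm hi hl (κ := 1 / 2) (by norm_num) measurableSet_Iio hβ x n)
  rintro ω ⟨w, hw1, hw2, hw3⟩
  refine ⟨w, hw1, hw2, ?_⟩
  have h2 := le_cost_countP (c := cf X' ω) (β := β)
    (fun e => @decide (X e ω ∈ Set.Iio β) (Classical.propDecidable _)) (fun e => h0 e ω)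
    (fun e he => by
      have he' : X e ω ∉ Set.Iio β := by simpa using he
      rw [Set.mem_Iio, not_lt] at he'
      exact (le_min he' hβ1).trans (h1 e ω)) x w
  by_contra hcon
  rw [not_lt] at hcon
  nlinarith [h2, hcon, hw3, hβ0]

end Pool.Agent.Helper50.PB
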