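import Pool.Agent.Helper79.GR.DB

/-!
# Project PG+ (b) (MP_13b103_pr): Peierls' estimate for arbitrary laws, with exponential decay

No boundedness of the weights is used: `X` are independent with a common law `ν`, `S` is a set of
values of small probability.
-/

set_option autoImplicit false

namespace Pool.Agent.Helper50.PB

open MeasureTheory ProbabilityTheory Pool.Agent.Helper79.GR

variable {Ω : Type*} [MeasurableSpace Ω] {d : ℕ} {P : Measure Ω} {ν : Measure ℝ}

theorem len_eds {d : ℕ} (x : V d) (w : List (St d)) : (eds x w).length = w.length := by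
  induction w generalizing x with
  | nil => rfl
  | cons s w ih => simp [eds, ih]

open Classical in
/-- the probability that `k` of the different edges of `l` have a weight in `S` -/
theorem one_list {ι : Type*} {X : ι → Ω → ℝ} [IsProbabilityMeasure P]
    (hm : ∀ e, Measurable (X e)) (hi : iIndepFun X P) (hl : ∀ e, P.map (X e) = ν)
    {S : Set ℝ} (hS : MeasurableSet S) {p : ℝ} (hp0 : 0 < p) (hp : ν.real S ≤ p) (l : List ι)
    (hnd : l.Nodup) (k : ℕ) :
    P {ω | k ≤ l.countP (fun e => decide (X e ω ∈ S))} ≤ ENNReal.ofReal (2 ^ l.length * p ^ k) := by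
  have hone : ∀ e, P (X e ⁻¹' S) ≤ ENNReal.ofReal p := by
    intro e
    rw [← Measure.map_apply (hm e) hS, hl e]
    have : IsProbabilityMeasure ν := by
      rw [← hl e]
      exact Measure.isProbabilityMeasure_map (hm e).aemeasurable
    rw [← ENNReal.ofReal_toReal (measure_ne_top ν S)]
    exact ENNReal.ofReal_le_ofReal hp
  have hsub : {ω | k ≤ l.countP (fun e => decide (X e ω ∈ S))} ⊆
      ⋃ s ∈ l.toFinset.powersetCard k, ⋂ e ∈ s, X e ⁻¹' S := by
    intro ω hω
    have hc : l.countP (fun e => decide (X e ω ∈ S)) =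
        (l.toFinset.filter (fun e => X e ω ∈ S)).card := by
      rw [List.countP_eq_length_filter, ← List.toFinset_card_of_nodup (hnd.filter _)]
      congr 1
      ext e
      simp
    have hω' : k ≤ (l.toFinset.filter (fun e => X e ω ∈ S)).card := hc ▸ hω
    obtain ⟨s, hs, hsk⟩ := Finset.exists_subset_card_eq hω'
    simp only [Set.mem_iUnion, Set.mem_iInter]
    refine ⟨s, Finset.mem_powersetCard.2 ⟨hs.trans (Finset.filter_subset _ _), hsk⟩, ?_⟩
    intro e he
    exact (Finset.mem_filter.1 (hs he)).2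
  calc P {ω | k ≤ l.countP (fun e => decide (X e ω ∈ S))}
      ≤ P (⋃ s ∈ l.toFinset.powersetCard k, ⋂ e ∈ s, X e ⁻¹' S) := measure_mono hsub
    _ ≤ ∑ s ∈ l.toFinset.powersetCard k, P (⋂ e ∈ s, X e ⁻¹' S) :=
        measure_biUnion_finset_le _ _
    _ ≤ ∑ _s ∈ l.toFinset.powersetCard k, ENNReal.ofReal (p ^ k) := by
        apply Finset.sum_le_sum
        intro s hs
        rw [hi.measure_inter_preimage_eq_mul s (sets := fun _ => S)
          (fun _ _ => hS), ENNReal.ofReal_pow hp0.le,
          ← (Finset.mem_powersetCard.1 hs).2, ← Finset.prod_const]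
        exact Finset.prod_le_prod' fun e _ => hone e
    _ ≤ ENNReal.ofReal (2 ^ l.length * p ^ k) := by
        rw [Finset.sum_const, nsmul_eq_mul, Finset.card_powersetCard,
          List.toFinset_card_of_nodup hnd, ← ENNReal.ofReal_natCast,
          ← ENNReal.ofReal_mul (by positivity)]
        apply ENNReal.ofReal_le_ofReal
        apply mul_le_mul_of_nonneg_right _ (by positivity)
        exact_mod_cast Nat.choose_le_two_pow _ _

/-- the threshold of Peierls' estimate -/
noncomputable def pthr (d : ℕ) (κ : ℝ) : ℝ := min 1 ((Real.exp (-2) / (2 * (2 * d + 1))) ^ (1 / κ))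

theorem pthr_pos (d : ℕ) (κ : ℝ) : 0 < pthr d κ := lt_min one_pos (by positivity)

theorem pthr_le (d : ℕ) (κ : ℝ) : pthr d κ ≤ 1 := min_le_left _ _

theorem pthr_pow {d : ℕ} {κ : ℝ} (hκ : 0 < κ) {m k : ℕ} (hmk : κ * m ≤ k) :
    pthr d κ ^ k ≤ (Real.exp (-2) / (2 * (2 * d + 1))) ^ m := by
  set q : ℝ := Real.exp (-2) / (2 * (2 * d + 1)) with hq
  have hq0 : 0 < q := by positivity
  calc pthr d κ ^ k = pthr d κ ^ ((k : ℕ) : ℝ) := (Real.rpow_natCast _ k).symm
    _ ≤ pthr d κ ^ (κ * m) :=
        Real.rpow_le_rpow_of_exponent_ge (pthr_pos d κ) (pthr_le d κ) hmk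
    _ ≤ (q ^ (1 / κ)) ^ (κ * m) :=
        Real.rpow_le_rpow (pthr_pos d κ).le (min_le_right _ _) (by positivity)
    _ = q ^ ((1 / κ) * (κ * m)) := (Real.rpow_mul hq0.le _ _).symm
    _ = q ^ ((m : ℕ) : ℝ) := by
        congr 1
        field_simp
    _ = q ^ m := Real.rpow_natCast q m

open Classical in
/-- **Peierls' estimate**: walks from `x` with at least `n` steps, different edges and more than a
part `κ` of weights in `S` -/
theorem peierls_set {X : Edge d → Ω → ℝ} [IsProbabilityMeasure P]
    (hm : ∀ e, Measurable (X e)) (hi : iIndepFun X P) (hl : ∀ e, P.map (X e) = ν)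
    {κ : ℝ} (hκ : 0 < κ) {S : Set ℝ} (hS : MeasurableSet S) (hp : ν.real S ≤ pthr d κ)
    (x : V d) (n : ℕ) :
    P {ω | ∃ w : List (St d), n ≤ w.length ∧ (eds x w).Nodup ∧
      κ * w.length < ((eds x w).countP (fun e => decide (X e ω ∈ S)) : ℝ)} ≤
      ENNReal.ofReal (Real.exp (-n)) := by
  set q : ℝ := Real.exp (-2) / (2 * (2 * d + 1)) with hq
  have hq0 : 0 < q := by positivity
  set E : (m : ℕ) → (Fin m → St d) → Set Ω := fun m f =>
    {ω | (eds x (List.ofFn f)).Nodup ∧
      κ * (m : ℝ) < ((eds x (List.ofFn f)).countP (fun e => decide (X e ω ∈ S)) : ℝ)} with hE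
  have hsub : {ω | ∃ w : List (St d), n ≤ w.length ∧ (eds x w).Nodup ∧
      κ * w.length < ((eds x w).countP (fun e => decide (X e ω ∈ S)) : ℝ)} ⊆
      ⋃ m : ℕ, ⋃ f, E (n + m) f := by
    rintro ω ⟨w, hw1, hw2, hw3⟩
    obtain ⟨m, hm'⟩ := Nat.exists_eq_add_of_le hw1
    simp only [Set.mem_iUnion]
    refine ⟨m, fun i => w.get (i.cast hm'.symm), ?_⟩
    have h4 : List.ofFn (fun i : Fin (n + m) => w.get (i.cast hm'.symm)) = w := by
      apply List.ext_getElem
      · rw [List.length_ofFn, hm']
      · intro i h5 h6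
        rw [List.getElem_ofFn]
        rfl
    show (eds x (List.ofFn (fun i : Fin (n + m) => w.get (i.cast hm'.symm)))).Nodup ∧ _
    rw [h4]
    refine ⟨hw2, ?_⟩
    rw [← hm']
    exact hw3
  have hone : ∀ (m : ℕ) (f : Fin m → St d), P (E m f) ≤ ENNReal.ofReal (2 ^ m * q ^ m) := by
    intro m f
    by_cases hf : (eds x (List.ofFn f)).Nodup
    · have h1 := one_list hm hi hl hS (pthr_pos d κ) hp (eds x (List.ofFn f)) hf ⌈κ * m⌉₊
      rw [len_eds, List.length_ofFn] at h1
      refine (measure_mono ?_).trans (h1.trans (ENNReal.ofReal_le_ofReal ?_))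
      · rintro ω ⟨-, h3⟩
        exact Nat.ceil_le.2 h3.le
      · exact mul_le_mul_of_nonneg_left (pthr_pow hκ (Nat.le_ceil _)) (by positivity)
    · have h2 : E m f = ∅ := by
        rw [Set.eq_empty_iff_forall_notMem]
        rintro ω ⟨h3, -⟩
        exact hf h3
      rw [h2, measure_empty]
      exact zero_le
  have hlen : ∀ m : ℕ, P (⋃ f, E m f) ≤ ENNReal.ofReal (Real.exp (-2)) ^ m := by
    intro m
    calc P (⋃ f, E m f) ≤ ∑ f, P (E m f) := measure_iUnion_fintype_le _ _
      _ ≤ ∑ _f : Fin m → St d, ENNReal.ofReal (2 ^ m * q ^ m) :=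
          Finset.sum_le_sum fun f _ => hone m f
      _ = ENNReal.ofReal ((Fintype.card (St d) : ℝ) ^ m * (2 ^ m * q ^ m)) := by
          have e1 : (0 : ℝ) ≤ ((Fintype.card (St d) ^ m : ℕ) : ℝ) := Nat.cast_nonneg _
          rw [Finset.sum_const, Finset.card_univ, Fintype.card_fun, Fintype.card_fin, nsmul_eq_mul,
            ← Nat.cast_pow, ENNReal.ofReal_mul e1, ENNReal.ofReal_natCast]
      _ ≤ ENNReal.ofReal (Real.exp (-2) ^ m) := by
          apply ENNReal.ofReal_le_ofReal
          rw [← mul_pow, ← mul_pow]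
          refine pow_le_pow_left₀ (by positivity) ?_ m
          have h1 : (Fintype.card (St d) : ℝ) ≤ 2 * d + 1 := by
            rw [Fintype.card_prod, Fintype.card_fin, Fintype.card_bool]
            push_cast
            linarith
          calc (Fintype.card (St d) : ℝ) * (2 * q) ≤ (2 * d + 1) * (2 * q) :=
                mul_le_mul_of_nonneg_right h1 (by positivity)
            _ = Real.exp (-2) := by
                rw [hq]
                field_simp
      _ = ENNReal.ofReal (Real.exp (-2)) ^ m := ENNReal.ofReal_pow (Real.exp_nonneg _) m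
  rcases Nat.eq_zero_or_pos n with hn | hn
  · subst hn
    rw [Nat.cast_zero, neg_zero, Real.exp_zero, ENNReal.ofReal_one]
    exact prob_le_one
  · refine (measure_mono hsub).trans ((measure_iUnion_le _).trans ?_)
    refine (ENNReal.tsum_le_tsum fun m => hlen (n + m)).trans ?_
    simp only [pow_add]
    rw [ENNReal.tsum_mul_left, ENNReal.tsum_geometric]
    have hr1 : Real.exp (-2) ≤ 1 / 2 := by
      have e1 := Real.add_one_le_exp (2 : ℝ)
      rw [Real.exp_neg]
      rw [inv_le_comm₀ (Real.exp_pos _) (by norm_num)]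
      norm_num
      linarith
    have h2 : (1 : ENNReal) - ENNReal.ofReal (Real.exp (-2)) =
        ENNReal.ofReal (1 - Real.exp (-2)) := by
      rw [ENNReal.ofReal_sub _ (Real.exp_nonneg _), ENNReal.ofReal_one]
    rw [h2, ← ENNReal.ofReal_inv_of_pos (by linarith), ← ENNReal.ofReal_pow (Real.exp_nonneg _),
      ← ENNReal.ofReal_mul (by positivity)]
    apply ENNReal.ofReal_le_ofReal
    have h3 : (1 - Real.exp (-2))⁻¹ ≤ 2 := by
      rw [inv_le_comm₀ (by linarith) (by norm_num)]
      linarith
    have h4 : (2 : ℝ) ≤ Real.exp n := by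
      have e1 := Real.add_one_le_exp (n : ℝ)
      have e2 : (1 : ℝ) ≤ n := by exact_mod_cast hn
      linarith
    calc Real.exp (-2) ^ n * (1 - Real.exp (-2))⁻¹ ≤ Real.exp (-2) ^ n * Real.exp n :=
          mul_le_mul_of_nonneg_left (h3.trans h4) (by positivity)
      _ = Real.exp (-n) := by
          rw [← Real.exp_nat_mul, ← Real.exp_add]
          congr 1
          ring

end Pool.Agent.Helper50.PB
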